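import Pool.Agent.LSG.Stmts

/-! Squad LSG, row DEN: the group is dense. -/

set_option autoImplicit false

open MeasureTheory Set Topology

namespace Pool.Agent.LSG.H23

theorem den : DenStmt := by
  intro G hG
  have hop : (mu : Measure K).IsOpenPosMeasure := by unfold mu; infer_instance
  rw [dense_iff_inter_open]
  intro U hU hne
  obtain ⟨x, hx, hxU⟩ := hG.full U hU.measurableSet (hU.measure_pos mu hne)
  exact ⟨x, hxU, hx⟩

end Pool.Agent.LSG.H23
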