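import Pool.Agent.LSG.StmtsA

/-! Squad LSG, row FSM: a cylinder as a finite sum of cylinders of prescribed depths. -/

set_option autoImplicit false

open MeasureTheory Set Topology
open scoped BigOperators Pointwise

namespace Pool.Agent.LSG.H23

theorem sigma_homeo {X Y : ℕ → Type} [∀ i, TopologicalSpace (X i)] [∀ i, TopologicalSpace (Y i)]
    (h : ∀ i, Nonempty (X i ≃ₜ Y i)) : Nonempty ((Σ i, X i) ≃ₜ (Σ i, Y i)) := by
  have e : ∀ i, X i ≃ₜ Y i := fun i => Classical.choice (h i)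
  exact ⟨{ toEquiv := Equiv.sigmaCongrRight (fun i => (e i).toEquiv)
           continuous_toFun := continuous_sigma_iff.2
             (fun i => continuous_sigmaMk.comp (e i).continuous)
           continuous_invFun := continuous_sigma_iff.2
             (fun i => continuous_sigmaMk.comp (e i).symm.continuous) }⟩

theorem fsm (h1 : TrlStmt) : FsmStmt := by
  intro G hG n a N hfin hsum
  obtain ⟨-, -, h3, -⟩ := h1 G hG
  obtain ⟨F, hF⟩ : ∃ F : Finset ℕ, ∀ j, j ∈ F ↔ a j ≠ 0 := ⟨hfin.toFinset, fun j => by simp⟩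
  obtain ⟨M, hMn, hM⟩ : ∃ M : ℕ, n ≤ M ∧ ∀ j ∈ F, N j ≤ M :=
    ⟨n + F.sup N, by omega, fun j hj => le_trans (Finset.le_sup hj) (by omega)⟩
  -- the sum
  have hs1 : ∑ j ∈ F, (a j : ℝ) / 2 ^ N j = 1 / 2 ^ n := by
    rw [← hsum]
    symm
    apply finsum_eq_sum_of_support_subset
    intro j hj
    rw [Finset.mem_coe, hF]
    intro h0
    apply hj
    simp [h0]
  have hs2 : ∑ j ∈ F, 2 ^ (M - N j) * a j = 2 ^ (M - n) := by
    have h4 : (∑ j ∈ F, (2 : ℝ) ^ (M - N j) * a j) = 2 ^ (M - n) := by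
      have h5 : ∀ j ∈ F, (2 : ℝ) ^ (M - N j) * a j = 2 ^ M * ((a j : ℝ) / 2 ^ N j) := by
        intro j hj
        have h7 := hM j hj
        have h6 : (2 : ℝ) ^ M = 2 ^ (M - N j) * 2 ^ (N j) := by
          rw [← pow_add, Nat.sub_add_cancel h7]
        rw [h6]
        field_simp
      rw [Finset.sum_congr rfl h5, ← Finset.mul_sum, hs1]
      have h6 : (2 : ℝ) ^ M = 2 ^ (M - n) * 2 ^ n := by
        rw [← pow_add, Nat.sub_add_cancel hMn]
      rw [h6]
      field_simp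
    exact_mod_cast h4
  have e1 : ∀ j, Nonempty ((Fin (a j) × ↥(Gc G (N j))) ≃ₜ
      (Fin (2 ^ (M - N j) * a j) × ↥(Gc G M))) := by
    intro j
    by_cases hj : a j = 0
    · have i1 : IsEmpty (Fin (a j) × ↥(Gc G (N j))) := by
        rw [hj]
        infer_instance
      have i2 : IsEmpty (Fin (2 ^ (M - N j) * a j) × ↥(Gc G M)) := by
        rw [hj, mul_zero]
        infer_instance
      exact ⟨Homeomorph.empty⟩
    · have h4 := hM j ((hF j).2 hj)
      have h5 := h3 (N j) (M - N j) (a j)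
      rw [show N j + (M - N j) = M from by omega] at h5
      exact h5
  obtain ⟨e2⟩ := sigma_homeo e1
  have e3 : (Σ j : ℕ, Fin (2 ^ (M - N j) * a j)) × ↥(Gc G M) ≃ₜ
      Σ j : ℕ, Fin (2 ^ (M - N j) * a j) × ↥(Gc G M) := Homeomorph.sigmaProdDistrib
  obtain ⟨e4⟩ : Nonempty ((Σ j : ℕ, Fin (2 ^ (M - N j) * a j)) ≃ Fin (2 ^ (M - n))) := by
    have hall : ∀ x : (Σ j : ℕ, Fin (2 ^ (M - N j) * a j)),
        x ∈ F.sigma (fun j => (Finset.univ : Finset (Fin (2 ^ (M - N j) * a j)))) := by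
      rintro ⟨j, x⟩
      rw [Finset.mem_sigma]
      refine ⟨?_, Finset.mem_univ _⟩
      rw [hF]
      intro h0
      have h7 : 0 < 2 ^ (M - N j) * a j := lt_of_le_of_lt (Nat.zero_le _) x.2
      rw [h0, mul_zero] at h7
      exact absurd h7 (lt_irrefl 0)
    have hft : Fintype (Σ j : ℕ, Fin (2 ^ (M - N j) * a j)) := ⟨_, hall⟩
    have hc : Fintype.card (Σ j : ℕ, Fin (2 ^ (M - N j) * a j)) = 2 ^ (M - n) := by
      have h8 : (Finset.univ : Finset (Σ j : ℕ, Fin (2 ^ (M - N j) * a j))) =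
          F.sigma (fun j => (Finset.univ : Finset (Fin (2 ^ (M - N j) * a j)))) := by
        ext x
        exact ⟨fun _ => hall x, fun _ => Finset.mem_univ _⟩
      rw [← Finset.card_univ, h8, Finset.card_sigma, ← hs2]
      refine Finset.sum_congr rfl (fun j _ => ?_)
      rw [Finset.card_univ, Fintype.card_fin]
    exact ⟨Fintype.equivFinOfCardEq hc⟩
  have e5 : (Σ j : ℕ, Fin (2 ^ (M - N j) * a j)) ≃ₜ Fin (2 ^ (M - n)) := e4.toHomeomorphOfDiscrete
  have h6 := h3 n (M - n) 1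
  rw [show n + (M - n) = M from by omega, mul_one] at h6
  obtain ⟨e6⟩ := h6
  exact ⟨((Homeomorph.uniqueProd (Fin 1) ↥(Gc G n)).symm.trans e6).trans
    ((e5.prodCongr (Homeomorph.refl _)).symm.trans (e3.trans e2.symm))⟩

end Pool.Agent.LSG.H23
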